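import Pool.Agent.H75.SQ.Basic

/-!
# Quantum statistical algorithms for satisfiability: rows LOA and LOB
-/

set_option autoImplicit false

open Finset Matrix Pool.Agent.H75.SQ

namespace Pool.Agent.H75.SQ.LOB

theorem pf_LOB (hLOW : T_LOW) (hPAB : T_PAB) (hWTS : T_WTS) : T_LOB := by
  intro e c he he1 hc
  obtain ⟨r₀, h⟩ := hPAB e c he he1 hc
  refine ⟨r₀, fun r hr Λ hΛ => ?_⟩
  obtain ⟨n₀, h⟩ := h r hr Λ hΛ
  refine ⟨max n₀ 1, fun n hn k q m τ Q hQ hΛQ hq hτ hτ1 hm A T hT => ?_⟩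
  have hn1 : 1 ≤ n := le_trans (le_max_right _ _) hn
  obtain ⟨κ, hκ, h⟩ := h n (le_trans (le_max_left _ _) hn)
  have hn0 : (0 : ℝ) < n := by exact_mod_cast hn1
  have hτ0 : 0 < τ := lt_of_lt_of_le (Real.rpow_pos_of_pos hn0 _) hτ
  have hrk : r ≤ k := (hWTS n k r Q (fun _ => false) hn1 hQ).2.2.2.2.2.2
  obtain ⟨h1, h2, h3⟩ := h k q m τ T hrk hq hτ hτ1 hm hT
  have hm0 : 0 < m := by
    have : (0 : ℝ) < m := lt_of_lt_of_le (by positivity) hm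
    exact_mod_cast this
  exact hLOW n k r q m Q Λ κ τ _ A T hn1 hm0 hQ hΛQ hτ0 hτ1 hκ.le h1 h2
    (Real.rpow_pos_of_pos (by norm_num) _) h3

theorem pf_LOA (hLOW : T_LOW) (hPAA : T_PAA) (hWTS : T_WTS) : T_LOA := by
  intro Λ t e hΛ ht htL he
  obtain ⟨a, ha, r₀, n₀, κ, hκ, h⟩ := hPAA Λ t e hΛ ht htL he
  refine ⟨a, ha, r₀, max n₀ 1, fun n hn k r q m τ Q hr hQ hΛQ hq hτ hτ1 hqt hm A T hT => ?_⟩
  have hn1 : 1 ≤ n := le_trans (le_max_right _ _) hn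
  have hn0 : (0 : ℝ) < n := by exact_mod_cast hn1
  have hτ0 : 0 < τ := lt_of_lt_of_le (Real.exp_pos _) hτ
  have hrk : r ≤ k := (hWTS n k r Q (fun _ => false) hn1 hQ).2.2.2.2.2.2
  obtain ⟨h1, h2, h3⟩ := h n (le_trans (le_max_left _ _) hn) k r q m τ T hr hrk hq hτ hτ1 hqt hm hT
  have hm0 : 0 < m := by
    have : (0 : ℝ) < m := lt_of_lt_of_le (by positivity) hm
    exact_mod_cast this
  exact hLOW n k r q m Q Λ κ τ _ A T hn1 hm0 hQ hΛQ hτ0 hτ1 hκ.le h1 h2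
    (Real.rpow_pos_of_pos (by norm_num) _) h3

end Pool.Agent.H75.SQ.LOB
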