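import Pool.Agent.H10.SQ.BAD
import Pool.Agent.H10.SQ.SET
import Pool.Agent.H12.SQ.PAA
import Pool.Agent.H14.SQ.FOU
import Pool.Agent.H14.SQ.KER
import Pool.Agent.H19.SQ.LOW
import Pool.Agent.H19.SQ.REA
import Pool.Agent.H19.SQ.RED
import Pool.Agent.H27.SQ.DIA
import Pool.Agent.H27.SQ.UNS
import Pool.Agent.H30.SQ.DFA
import Pool.Agent.H32.SQ.DFB
import Pool.Agent.H32.SQ.GRO
import Pool.Agent.H32.SQ.VAN
import Pool.Agent.H33.SQ.HYA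
import Pool.Agent.H33.SQ.LOA
import Pool.Agent.H33.SQ.REB
import Pool.Agent.H4.SQ.PAB
import Pool.Agent.H40.SQ.COV
import Pool.Agent.H42.SQ.MNA
import Pool.Agent.H59.SQ.BAL
import Pool.Agent.H59.SQ.REC
import Pool.Agent.H60.SQ.EXD
import Pool.Agent.H60.SQ.NRM
import Pool.Agent.H61.SQ.TEN
import Pool.Agent.H7.SQ.SUM
import Pool.Agent.H73.SQ.HER
import Pool.Agent.H74.SQ.OPT
import Pool.Agent.H75.SQ.LOB
import Pool.Agent.H75.SQ.ODD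
import Pool.Agent.H93.SQ.CNC
import Pool.Agent.H93.SQ.HYB
import Pool.Agent.H93.SQ.TPW
import Pool.Agent.H93.SQ.WTS

/-!
# Quantum statistical algorithms for satisfiability: the theorem
-/

set_option autoImplicit false

open Finset Matrix

namespace Pool.Agent.H75.SQ

theorem x_BAL : T_BAL := Pool.Agent.H59.SQ.BAL.pf_BAL

theorem x_COV : T_COV := Pool.Agent.H40.SQ.COV.pf_COV

theorem x_DFA : T_DFA := Pool.Agent.H30.SQ.pf_DFA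

theorem x_FOU : T_FOU := Pool.Agent.H14.SQ.FOU.pf_FOU

theorem x_HER : T_HER := Pool.Agent.H73.SQ.HER.pf_HER

theorem x_HYA : T_HYA := Pool.Agent.H33.SQ.HYA.pf_HYA

theorem x_HYB : T_HYB := Pool.Agent.H93.SQ.HYB.pf_HYB x_HYA

theorem x_KER : T_KER := Pool.Agent.H14.SQ.KER.pf_KER x_FOU

theorem x_NRM : T_NRM := Pool.Agent.H60.SQ.NRM.pf_NRM

theorem x_ODD : T_ODD := Pool.Agent.H75.SQ.ODD.pf_ODD

theorem x_OPN : T_OPN := Pool.Agent.H30.SQ.pf_OPN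

theorem x_PAB : T_PAB := Pool.Agent.H4.SQ.PAB.pf_PAB x_BAL

theorem x_SUM : T_SUM := Pool.Agent.H7.SQ.SUM.pf_SUM x_BAL

theorem x_TEN : T_TEN := Pool.Agent.H61.SQ.TEN.pf_TEN

theorem x_TPW : T_TPW := Pool.Agent.H93.SQ.TPW.pf_TPW

theorem x_UNS : T_UNS := Pool.Agent.H27.SQ.UNS.pf_UNS

theorem x_VAN : T_VAN := Pool.Agent.H32.SQ.VAN.pf_VAN

theorem x_WTS : T_WTS := Pool.Agent.H93.SQ.WTS.pf_WTS

theorem x_DFB : T_DFB := Pool.Agent.H32.SQ.DFB.pf_DFB x_NRM x_TPW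

theorem x_DIA : T_DIA := Pool.Agent.H27.SQ.DIA.pf_DIA x_NRM

theorem x_EXD : T_EXD := Pool.Agent.H60.SQ.EXD.pf_EXD x_TEN x_COV x_HER

theorem x_GRO : T_GRO := Pool.Agent.H32.SQ.GRO.pf_GRO x_HYA

theorem x_MNA : T_MNA := Pool.Agent.H42.SQ.MNA.pf_MNA x_WTS

theorem x_PAA : T_PAA := Pool.Agent.H12.SQ.PAA.pf_PAA x_BAL x_WTS

theorem x_REA : T_REA := Pool.Agent.H19.SQ.REA.pf_REA x_OPN x_TPW x_NRM

theorem x_REB : T_REB := Pool.Agent.H33.SQ.REB.pf_REB x_VAN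

theorem x_REC : T_REC := Pool.Agent.H59.SQ.REC.pf_REC x_OPN x_TPW x_NRM

theorem x_RED : T_RED := Pool.Agent.H19.SQ.RED.pf_RED x_NRM x_REA x_REB x_REC

theorem x_SET : T_SET := Pool.Agent.H10.SQ.SET.pf_SET x_KER x_WTS

theorem x_CNC : T_CNC := Pool.Agent.H93.SQ.CNC.pf_CNC x_DFA x_DFB x_EXD x_NRM

theorem x_OPT : T_OPT := Pool.Agent.H74.SQ.OPT.pf_OPT x_ODD x_DIA x_MNA x_SUM x_GRO x_CNC x_WTS

theorem x_BAD : T_BAD := Pool.Agent.H10.SQ.BAD.pf_BAD x_SET x_RED x_CNC x_WTS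

theorem x_LOW : T_LOW := Pool.Agent.H19.SQ.LOW.pf_LOW x_BAD x_HYB x_UNS x_WTS

theorem x_LOA : T_LOA := Pool.Agent.H33.SQ.LOA.pf_LOA x_LOW x_PAA x_WTS

theorem x_LOB : T_LOB := Pool.Agent.H75.SQ.LOB.pf_LOB x_LOW x_PAB x_WTS

theorem x_ALL : T_LOA ∧ T_LOB ∧ T_OPT := ⟨x_LOA, x_LOB, x_OPT⟩

end Pool.Agent.H75.SQ
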