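import Pool.Agent.H75.SQ.Targets

/-!
# Quantum statistical algorithms for satisfiability: elementary facts
-/

set_option autoImplicit false

open Finset Matrix

namespace Pool.Agent.H75.SQ

/-! ### Indicators -/

theorem ind_true (p : Prop) (h : p) : ind p = 1 := by
  classical
  unfold ind
  rw [if_pos h]

theorem ind_false (p : Prop) (h : ¬ p) : ind p = 0 := by
  classical
  unfold ind
  rw [if_neg h]

theorem ind_nonneg (p : Prop) : 0 ≤ ind p := by
  by_cases h : p
  · rw [ind_true p h]; norm_num
  · rw [ind_false p h]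

theorem ind_le_one (p : Prop) : ind p ≤ 1 := by
  by_cases h : p
  · rw [ind_true p h]
  · rw [ind_false p h]; norm_num

theorem ind_mono (p p' : Prop) (h : p → p') : ind p ≤ ind p' := by
  by_cases hp : p
  · rw [ind_true p hp, ind_true p' (h hp)]
  · rw [ind_false p hp]; exact ind_nonneg p'

theorem ind_or (p p' : Prop) : ind (p ∨ p') ≤ ind p + ind p' := by
  by_cases hp : p
  · rw [ind_true p hp]
    have := ind_le_one (p ∨ p')
    have := ind_nonneg p'
    linarith
  · by_cases hp' : p'
    · rw [ind_true p' hp']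
      have := ind_le_one (p ∨ p')
      have := ind_nonneg p
      linarith
    · rw [ind_false (p ∨ p') (by tauto)]
      have := ind_nonneg p
      have := ind_nonneg p'
      linarith

theorem ind_not (p : Prop) : ind (¬ p) = 1 - ind p := by
  by_cases hp : p
  · rw [ind_true p hp, ind_false (¬ p) (by tauto)]; norm_num
  · rw [ind_false p hp, ind_true (¬ p) hp]; norm_num

/-- the inequality of Markov, pointwise -/
theorem ind_le_div (x c : ℝ) (hc : 0 < c) (hx : 0 ≤ x) : ind (c < x) ≤ x / c := by
  by_cases h : c < x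
  · rw [ind_true _ h, le_div_iff₀ hc]; linarith
  · rw [ind_false _ h]; positivity

/-! ### Expectations over the formulas -/

section EFs

variable {γ : Type} [Fintype γ] [DecidableEq γ]

omit [Fintype γ] [DecidableEq γ] in
theorem prod_nonneg' (w : γ → ℝ) (hw : ∀ C, 0 ≤ w C) (m : ℕ) (F : Fin m → γ) :
    0 ≤ ∏ j, w (F j) := Finset.prod_nonneg fun _ _ => hw _

theorem EF_add (w : γ → ℝ) (m : ℕ) (f g : (Fin m → γ) → ℝ) :
    EF w m (fun F => f F + g F) = EF w m f + EF w m g := by
  unfold EF
  rw [← Finset.sum_add_distrib]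
  exact Finset.sum_congr rfl fun F _ => by ring

theorem EF_mul (w : γ → ℝ) (m : ℕ) (c : ℝ) (f : (Fin m → γ) → ℝ) :
    EF w m (fun F => c * f F) = c * EF w m f := by
  unfold EF
  rw [Finset.mul_sum]
  exact Finset.sum_congr rfl fun F _ => by ring

theorem EF_sub (w : γ → ℝ) (m : ℕ) (f g : (Fin m → γ) → ℝ) :
    EF w m (fun F => f F - g F) = EF w m f - EF w m g := by
  unfold EF
  rw [← Finset.sum_sub_distrib]
  exact Finset.sum_congr rfl fun F _ => by ring

theorem EF_sum {ι : Type} (s : Finset ι) (w : γ → ℝ) (m : ℕ) (f : ι → (Fin m → γ) → ℝ) :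
    EF w m (fun F => ∑ x ∈ s, f x F) = ∑ x ∈ s, EF w m (f x) := by
  unfold EF
  rw [Finset.sum_comm]
  exact Finset.sum_congr rfl fun F _ => by rw [Finset.mul_sum]

theorem EF_mono (w : γ → ℝ) (hw : ∀ C, 0 ≤ w C) (m : ℕ) (f g : (Fin m → γ) → ℝ)
    (h : ∀ F, f F ≤ g F) : EF w m f ≤ EF w m g :=
  Finset.sum_le_sum fun F _ => mul_le_mul_of_nonneg_left (h F) (prod_nonneg' w hw m F)

theorem EF_nonneg (w : γ → ℝ) (hw : ∀ C, 0 ≤ w C) (m : ℕ) (f : (Fin m → γ) → ℝ)
    (h : ∀ F, 0 ≤ f F) : 0 ≤ EF w m f :=
  Finset.sum_nonneg fun F _ => mul_nonneg (prod_nonneg' w hw m F) (h F)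

omit [DecidableEq γ] in
theorem sum_prod (w : γ → ℝ) (hw : Pw w) (m : ℕ) : ∑ F : Fin m → γ, ∏ j, w (F j) = 1 := by
  have h := Finset.prod_univ_sum (fun _ : Fin m => (Finset.univ : Finset γ)) (fun _ C => w C)
  rw [Fintype.piFinset_univ] at h
  rw [← h]
  simp [hw.2]

theorem EF_const (w : γ → ℝ) (hw : Pw w) (m : ℕ) (c : ℝ) : EF w m (fun _ => c) = c := by
  unfold EF
  rw [← Finset.sum_mul, sum_prod w hw m, one_mul]

theorem EF_abs_le (w : γ → ℝ) (hw : Pw w) (m : ℕ) (f : (Fin m → γ) → ℝ) (c : ℝ)
    (h : ∀ F, |f F| ≤ c) : |EF w m f| ≤ c := by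
  rw [abs_le]
  constructor
  · rw [← EF_const w hw m (-c)]
    exact EF_mono w hw.1 m _ _ fun F => (abs_le.1 (h F)).1
  · rw [← EF_const w hw m c]
    exact EF_mono w hw.1 m _ _ fun F => (abs_le.1 (h F)).2

/-- the first clause and the others -/
theorem EF_succ (w : γ → ℝ) (m : ℕ) (f : (Fin (m + 1) → γ) → ℝ) :
    EF w (m + 1) f = ∑ C, w C * EF w m (fun F => f (Fin.cons C F)) := by
  unfold EF
  rw [← (Fin.consEquiv fun _ : Fin (m + 1) => γ).sum_comp, Fintype.sum_prod_type]
  refine Finset.sum_congr rfl fun C _ => ?_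
  rw [Finset.mul_sum]
  refine Finset.sum_congr rfl fun F _ => ?_
  have e : (Fin.consEquiv fun _ : Fin (m + 1) => γ) (C, F) = Fin.cons C F := rfl
  rw [e, Fin.prod_univ_succ]
  simp only [Fin.cons_zero, Fin.cons_succ]
  ring

/-- a clause and the others -/
theorem EF_insert (w : γ → ℝ) (m : ℕ) (i : Fin (m + 1)) (f : (Fin (m + 1) → γ) → ℝ) :
    EF w (m + 1) f = ∑ C, w C * EF w m (fun F => f (i.insertNth C F)) := by
  unfold EF
  rw [← (Fin.insertNthEquiv (fun _ : Fin (m + 1) => γ) i).sum_comp, Fintype.sum_prod_type]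
  refine Finset.sum_congr rfl fun C _ => ?_
  rw [Finset.mul_sum]
  refine Finset.sum_congr rfl fun F _ => ?_
  have e : (Fin.insertNthEquiv (fun _ : Fin (m + 1) => γ) i) (C, F) = i.insertNth C F := rfl
  rw [e, Fin.prod_univ_succAbove _ i]
  simp only [Fin.insertNth_apply_same, Fin.insertNth_apply_succAbove]
  ring

/-- one clause is drawn again -/
theorem EF_update (w : γ → ℝ) (hw : Pw w) (m : ℕ) (i : Fin m) (f : (Fin m → γ) → ℝ) :
    EF w m f = EF w m (fun F => ∑ C, w C * f (Function.update F i C)) := by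
  obtain ⟨m, rfl⟩ : ∃ m', m = m' + 1 := ⟨m - 1, by have := i.2; omega⟩
  rw [EF_insert w m i, EF_insert w m i]
  have h : ∀ (C : γ) (F : Fin m → γ), ∑ C', w C' * f (Function.update (i.insertNth C F) i C') =
      ∑ C', w C' * f (i.insertNth C' F) := by
    intro C F
    refine Finset.sum_congr rfl fun C' _ => ?_
    rw [Fin.update_insertNth]
  simp only [h]
  rw [← Finset.sum_mul, hw.2, one_mul, EF_sum]
  refine Finset.sum_congr rfl fun C _ => ?_
  rw [EF_mul]

/-- the clauses at different places are independent -/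
theorem EF_inj (w : γ → ℝ) (hw : Pw w) (m q : ℕ) (j : Fin q → Fin m)
    (hj : Function.Injective j) (g : (Fin q → γ) → ℝ) :
    EF w m (fun F => g fun i => F (j i)) = EF w q g := by
  classical
  have h1 : ∀ F : Fin m → γ, (g fun i => F (j i)) =
      ∑ A : Fin q → γ, (if A = fun i => F (j i) then 1 else 0) * g A := by
    intro F
    simp
  have h2 : ∀ (A : Fin q → γ) (F : Fin m → γ), (if A = fun i => F (j i) then (1 : ℝ) else 0) =
      ∏ l, if ∀ i, l = j i → F l = A i then 1 else 0 := by
    intro A F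
    by_cases h : A = fun i => F (j i)
    · rw [if_pos h]
      symm
      refine Finset.prod_eq_one fun l _ => ?_
      rw [if_pos]
      intro i hi
      rw [h, hi]
    · rw [if_neg h]
      symm
      obtain ⟨i, hi⟩ : ∃ i, A i ≠ F (j i) := by
        by_contra hc
        push Not at hc
        exact h (funext hc)
      refine Finset.prod_eq_zero (Finset.mem_univ (j i)) ?_
      rw [if_neg]
      intro hc
      exact hi (hc i rfl).symm
  have h3 : ∀ A : Fin q → γ, ∑ F : Fin m → γ, (∏ l, w (F l)) *
      (if A = fun i => F (j i) then (1 : ℝ) else 0) = ∏ i, w (A i) := by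
    intro A
    simp only [h2, ← Finset.prod_mul_distrib]
    have h4 := Finset.prod_univ_sum (fun _ : Fin m => (Finset.univ : Finset γ))
      (fun l C => w C * if ∀ i, l = j i → C = A i then (1 : ℝ) else 0)
    rw [Fintype.piFinset_univ] at h4
    rw [← h4]
    have h5 : ∀ l, ∑ C, w C * (if ∀ i, l = j i → C = A i then (1 : ℝ) else 0) =
        if l ∈ Finset.univ.image j then ∏ i, (if l = j i then w (A i) else 1) else 1 := by
      intro l
      by_cases hl : l ∈ Finset.univ.image j
      · rw [if_pos hl]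
        obtain ⟨i, -, rfl⟩ := Finset.mem_image.1 hl
        have e1 : ∀ C, (∀ i', j i = j i' → C = A i') ↔ C = A i := by
          intro C
          constructor
          · intro h
            exact h i rfl
          · intro h i' hi'
            rw [← hj hi']
            exact h
        simp only [e1]
        rw [Finset.prod_eq_single i]
        · simp
        · intro b _ hb
          rw [if_neg]
          intro hc
          exact hb (hj hc).symm
        · intro h
          exact absurd (Finset.mem_univ _) h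
      · rw [if_neg hl]
        have e1 : ∀ C : γ, ∀ i, l = j i → C = A i := by
          intro C i hi
          exact absurd (Finset.mem_image.2 ⟨i, Finset.mem_univ _, hi.symm⟩) hl
        have e2 : ∀ C : γ, (if ∀ i, l = j i → C = A i then (1 : ℝ) else 0) = 1 := by
          intro C
          rw [if_pos (e1 C)]
        simp only [e2, mul_one]
        exact hw.2
    rw [Finset.prod_congr rfl fun l _ => h5 l]
    rw [Finset.prod_ite_mem, Finset.univ_inter, Finset.prod_image fun a _ b _ h => hj h]
    refine Finset.prod_congr rfl fun i _ => ?_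
    rw [Finset.prod_eq_single i]
    · simp
    · intro b _ hb
      rw [if_neg]
      intro hc
      exact hb (hj hc).symm
    · intro h
      exact absurd (Finset.mem_univ _) h
  unfold EF
  simp only [h1, Finset.mul_sum]
  rw [Finset.sum_comm]
  refine Finset.sum_congr rfl fun A _ => ?_
  rw [← h3 A, Finset.sum_mul]
  refine Finset.sum_congr rfl fun F _ => ?_
  ring

end EFs

end Pool.Agent.H75.SQ
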