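import Mathlib

/-!
# Quantum statistical algorithms for satisfiability (problem MP_0f8dca_lc): definitions
-/

set_option autoImplicit false

open Finset Matrix

namespace Pool.Agent.H75.SQ

/-! ### Formulas -/

/-- clauses of `k` literals `(x, b)`: the variable `x` has the value `b` -/
abbrev Cl (n k : ℕ) : Type := Fin k → Fin n × Bool

/-- the truth values of the literals of the clause `C` at the assignment `z` -/
def pat {n k : ℕ} (z : Fin n → Bool) (C : Cl n k) : Fin k → Bool := fun i => z (C i).1 == (C i).2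

/-- the formula `F` with the clauses `F 0, ..., F (m-1)` is satisfiable -/
def Sat {n k m : ℕ} (F : Fin m → Cl n k) : Prop := ∃ z : Fin n → Bool, ∀ j, ∃ i, pat z (F j) i = true

/-- `Q` is a law on the patterns of truth values which avoids the pattern of `k` false literals
and for which every `r - 1` coordinates are uniform and independent -/
structure Law (k r : ℕ) (Q : (Fin k → Bool) → ℝ) : Prop where
  nonneg : ∀ y, 0 ≤ Q y
  sum : ∑ y, Q y = 1
  sat : Q (fun _ => false) = 0
  indep : ∀ (S : Finset (Fin k)) (a : Fin k → Bool), S.card < r →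
    ∑ y with ∀ i ∈ S, y i = a i, Q y = (1 / 2) ^ S.card

/-- the law `Q` of an odd number of true literals -/
noncomputable def Qodd (k : ℕ) (y : Fin k → Bool) : ℝ :=
  if Odd (univ.filter fun i => y i = true).card then 2 / 2 ^ k else 0

/-- the indicator -/
noncomputable def ind (p : Prop) : ℝ := by classical exact if p then 1 else 0

/-- the expectation of `f F` for `m` independent clauses of the law `w` -/
noncomputable def EF {γ : Type} [Fintype γ] [DecidableEq γ] (w : γ → ℝ) (m : ℕ)
    (f : (Fin m → γ) → ℝ) : ℝ := ∑ F : Fin m → γ, (∏ j, w (F j)) * f F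

/-- the planted law of a clause: uniform variables, signs such that the pattern at `z` has the
law `Q` -/
noncomputable def pc {n k : ℕ} (Q : (Fin k → Bool) → ℝ) (z : Fin n → Bool) (C : Cl n k) : ℝ :=
  Q (pat z C) / n ^ k

/-- the uniform law of a clause -/
noncomputable def uc {n k : ℕ} (_ : Cl n k) : ℝ := 1 / (2 * n) ^ k

/-- the probability of `p` for the planted formulas, `z` uniform -/
noncomputable def Ppl {n k : ℕ} (Q : (Fin k → Bool) → ℝ) (m : ℕ)
    (p : (Fin m → Cl n k) → Prop) : ℝ :=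
  (∑ z : Fin n → Bool, EF (pc Q z) m (fun F => ind (p F))) / 2 ^ n

/-- the probability of `p` for the uniform formulas -/
noncomputable def Pun {n k : ℕ} (m : ℕ) (p : (Fin m → Cl n k) → Prop) : ℝ :=
  EF uc m (fun F => ind (p F))

/-! ### Observables on copies of the state of the formula -/

/-- the state `m^(-1/2) ∑ |j, F j⟩` -/
noncomputable def fs {γ : Type} [DecidableEq γ] {m : ℕ} (F : Fin m → γ) (x : Fin m × γ) : ℂ :=
  if F x.1 = x.2 then ((1 / Real.sqrt m : ℝ) : ℂ) else 0

/-- `q` copies of the state -/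
noncomputable def fq {γ : Type} [DecidableEq γ] {m : ℕ} (q : ℕ) (F : Fin m → γ)
    (s : Fin q → Fin m × γ) : ℂ := ∏ i, fs F (s i)

/-- the value of the quadratic form of `M` -/
noncomputable def qf {ι : Type} [Fintype ι] (M : Matrix ι ι ℂ) (a : ι → ℂ) : ℝ :=
  (star a ⬝ᵥ M.mulVec a).re

/-- observables of norm at most one -/
def Obs {ι : Type} [Fintype ι] (M : Matrix ι ι ℂ) : Prop :=
  M.IsHermitian ∧ ∀ a : ι → ℂ, |qf M a| ≤ ∑ x, ‖a x‖ ^ 2

/-- the expectation of the observable `M` on `q` copies of the state of `F` -/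
noncomputable def ex {γ : Type} [Fintype γ] [DecidableEq γ] {m q : ℕ} (F : Fin m → γ)
    (M : Matrix (Fin q → Fin m × γ) (Fin q → Fin m × γ) ℂ) : ℝ := qf M (fq q F)

/-- quantum algorithms: `a` observables `M i`, a workspace of dimension `d`, unitaries `U t`, the
unitary `R i x` applied to the workspace if the observable is `i` and the answer is `x`, the start
vector and the accepting basis vectors -/
structure Alg (q m : ℕ) (γ : Type) [Fintype γ] [DecidableEq γ] where
  a : ℕ
  d : ℕ
  M : Fin a → Matrix (Fin q → Fin m × γ) (Fin q → Fin m × γ) ℂ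
  obs : ∀ i, Obs (M i)
  U : ℕ → Matrix (Fin a × Fin d) (Fin a × Fin d) ℂ
  un : ∀ t, U t ∈ unitaryGroup (Fin a × Fin d) ℂ
  R : Fin a → ℝ → Matrix (Fin d) (Fin d) ℂ
  ur : ∀ i x, R i x ∈ unitaryGroup (Fin d) ℂ
  start : Fin a × Fin d → ℂ
  unit : ∑ x, ‖start x‖ ^ 2 = 1
  acc : Finset (Fin a × Fin d)

/-- the query, for the answers `v` -/
noncomputable def Alg.qu {q m : ℕ} {γ : Type} [Fintype γ] [DecidableEq γ] (A : Alg q m γ)
    (v : Fin A.a → ℝ) (x : Fin A.a × Fin A.d → ℂ) : Fin A.a × Fin A.d → ℂ :=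
  fun y => ∑ c, A.R y.1 (v y.1) y.2 c * x (y.1, c)

/-- the state after `t` queries, for the answers `v` -/
noncomputable def Alg.st {q m : ℕ} {γ : Type} [Fintype γ] [DecidableEq γ] (A : Alg q m γ)
    (v : Fin A.a → ℝ) : ℕ → Fin A.a × Fin A.d → ℂ
  | 0 => (A.U 0).mulVec A.start
  | t + 1 => (A.U (t + 1)).mulVec (A.qu v (A.st v t))

/-- the probability of acceptance with `T` queries, for the answers `v` -/
noncomputable def Alg.pr {q m : ℕ} {γ : Type} [Fintype γ] [DecidableEq γ] (A : Alg q m γ)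
    (T : ℕ) (v : Fin A.a → ℝ) : ℝ := ∑ x ∈ A.acc, ‖A.st v T x‖ ^ 2

/-- the answers `v` are admissible for `F` with the precision `τ` -/
def Adm {q m : ℕ} {γ : Type} [Fintype γ] [DecidableEq γ] (A : Alg q m γ) (τ : ℝ) (F : Fin m → γ)
    (v : Fin A.a → ℝ) : Prop := ∀ i, |v i - ex F (A.M i)| ≤ τ

/-- the algorithm `A` with `T` queries cannot tell the planted from the uniform formulas, up to
errors `ε`: for most of the formulas there are admissible answers for which it accepts with
probability `p ± ε` -/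
def Fails {n k m q : ℕ} (Q : (Fin k → Bool) → ℝ) (A : Alg q m (Cl n k)) (T : ℕ) (τ ε : ℝ) : Prop :=
  ∃ p : ℝ,
    1 - ε ≤ Ppl Q m (fun F => Sat F ∧ ∃ v, Adm A τ F v ∧ |A.pr T v - p| ≤ ε) ∧
    1 - ε ≤ Pun m (fun F : Fin m → Cl n k => ¬ Sat F ∧ ∃ v, Adm A τ F v ∧ |A.pr T v - p| ≤ ε)

/-! ### Tools -/

/-- the expectation of `h A` for `q` independent clauses of the law `w` -/
noncomputable def mu {γ : Type} [Fintype γ] [DecidableEq γ] (w : γ → ℝ) (q : ℕ)
    (h : (Fin q → γ) → ℝ) : ℝ := EF w q h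

/-- the correlation of two assignments -/
noncomputable def kap {n : ℕ} (z z' : Fin n → Bool) : ℝ :=
  1 - 2 * ((univ.filter fun i => z i ≠ z' i).card : ℝ) / n

/-- the number of assignments whose correlation with a given one is larger than `κ` -/
noncomputable def far (n : ℕ) (κ : ℝ) : ℕ := by
  classical exact (univ.filter fun z : Fin n → Bool => κ < |kap (fun _ => false) z|).card

/-- the norm -/
noncomputable def nm {ι : Type} [Fintype ι] (a : ι → ℂ) : ℝ := Real.sqrt (∑ x, ‖a x‖ ^ 2)

/-- the norm of the mean vector -/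
noncomputable def dl {γ : Type} [Fintype γ] (w : γ → ℝ) : ℝ := Real.sqrt (∑ C, w C ^ 2)

/-- the symmetrised basis vector of the pairs `(j i, A i)` -/
noncomputable def sy {γ : Type} [DecidableEq γ] {m q : ℕ} (j : Fin q → Fin m) (A : Fin q → γ)
    (s : Fin q → Fin m × γ) : ℂ :=
  ((1 / Real.sqrt (q.factorial : ℝ) : ℝ) : ℂ) *
    ∑ π : Equiv.Perm (Fin q), if s = fun i => (j (π i), A (π i)) then 1 else 0

/-- the test of the observable `M`: the mean over the injective `j` of its value on `sy j A` -/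
noncomputable def tst {γ : Type} [Fintype γ] [DecidableEq γ] {m q : ℕ}
    (M : Matrix (Fin q → Fin m × γ) (Fin q → Fin m × γ) ℂ) (A : Fin q → γ) : ℝ := by
  classical exact
    (∑ j : Fin q → Fin m with Function.Injective j, qf M (sy j A)) /
      ((univ.filter fun j : Fin q → Fin m => Function.Injective j).card : ℝ)

/-- the sign of a truth value -/
def sg (b : Bool) : ℝ := if b then -1 else 1

/-- the characters -/
noncomputable def ch {k : ℕ} (T : Finset (Fin k)) (y : Fin k → Bool) : ℝ := ∏ i ∈ T, sg (y i)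

/-- the Fourier coefficients -/
noncomputable def fh {k : ℕ} (Q : (Fin k → Bool) → ℝ) (T : Finset (Fin k)) : ℝ := ∑ y, Q y * ch T y

/-- the part with different indices -/
noncomputable def pj {γ : Type} {m q : ℕ} (a : (Fin q → Fin m × γ) → ℂ)
    (s : Fin q → Fin m × γ) : ℂ := by
  classical exact if Function.Injective (fun i => (s i).1) then a s else 0

/-- the centered state -/
noncomputable def uv {γ : Type} [DecidableEq γ] {m : ℕ} (w : γ → ℝ) (F : Fin m → γ)
    (x : Fin m × γ) : ℂ :=
  ((1 / Real.sqrt m * ((if F x.1 = x.2 then 1 else 0) - w x.2) : ℝ) : ℂ)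

/-- the symmetrised centered vector -/
noncomputable def syc {γ : Type} [DecidableEq γ] {m q : ℕ} (w : γ → ℝ) (F : Fin m → γ)
    (j : Fin q → Fin m) (s : Fin q → Fin m × γ) : ℂ :=
  ((1 / Real.sqrt (q.factorial : ℝ) : ℝ) : ℂ) * ∑ π : Equiv.Perm (Fin q),
    if (fun i => (s i).1) = fun i => j (π i) then
      ∏ i, (((if F (s i).1 = (s i).2 then 1 else 0) - w (s i).2 : ℝ) : ℂ) else 0

/-- effects -/
def Eff {ι : Type} [Fintype ι] (M : Matrix ι ι ℂ) : Prop :=
  M.IsHermitian ∧ ∀ a : ι → ℂ, 0 ≤ qf M a ∧ qf M a ≤ ∑ x, ‖a x‖ ^ 2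

/-- the test of the guess `a` for the first `s` variables -/
noncomputable def ht {n k q : ℕ} (s : ℕ) (a : Fin n → Bool) (A : Fin q → Cl n k) : ℝ :=
  ind (∃ y : Fin n → Bool, (∀ i : Fin n, (i : ℕ) < s → y i = a i) ∧
    ∀ l, Odd (univ.filter fun i => pat y (A l) i = true).card)

/-- the diagonal observable of a test -/
noncomputable def dm {γ : Type} [DecidableEq γ] {m q : ℕ} (h : (Fin q → γ) → ℝ) :
    Matrix (Fin q → Fin m × γ) (Fin q → Fin m × γ) ℂ :=
  Matrix.diagonal fun s => ((h fun i => (s i).2 : ℝ) : ℂ)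

/-- a probability law -/
def Pw {γ : Type} [Fintype γ] (w : γ → ℝ) : Prop := (∀ C, 0 ≤ w C) ∧ ∑ C, w C = 1

end Pool.Agent.H75.SQ
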