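import Pool.Agent.H75.SQ.Basic

/-!
# Quantum statistical algorithms for satisfiability: row ODD
-/

set_option autoImplicit false

open Finset Matrix Pool.Agent.H75.SQ

namespace Pool.Agent.H75.SQ.ODD

theorem prod_sg {k : ℕ} (y : Fin k → Bool) :
    ∏ i, sg (y i) = (-1) ^ (univ.filter fun i => y i = true).card := by
  have h : ∀ i, sg (y i) = if y i = true then (-1 : ℝ) else 1 := by
    intro i
    unfold sg
    cases y i <;> simp
  simp only [h]
  rw [Finset.prod_ite]
  simp

theorem Qodd_eq {k : ℕ} (y : Fin k → Bool) : Qodd k y = (1 - ∏ i, sg (y i)) / 2 ^ k := by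
  rw [prod_sg]
  unfold Qodd
  by_cases h : Odd (univ.filter fun i => y i = true).card
  · rw [if_pos h, h.neg_one_pow]
    norm_num
  · rw [if_neg h, (Nat.not_odd_iff_even.1 h).neg_one_pow]
    simp

theorem sum_on {k : ℕ} (S : Finset (Fin k)) (a : Fin k → Bool) (hS : S.card < k) :
    ∑ y : Fin k → Bool with ∀ i ∈ S, y i = a i, Qodd k y = (1 / 2) ^ S.card := by
  classical
  set t : Fin k → Finset Bool := fun i => if i ∈ S then {a i} else univ with ht
  have hf : (univ.filter fun y : Fin k → Bool => ∀ i ∈ S, y i = a i) = Fintype.piFinset t := by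
    ext y
    simp only [Finset.mem_filter, Finset.mem_univ, true_and, Fintype.mem_piFinset, ht]
    constructor
    · intro h i
      by_cases hi : i ∈ S
      · rw [if_pos hi, Finset.mem_singleton]
        exact h i hi
      · rw [if_neg hi]
        exact Finset.mem_univ _
    · intro h i hi
      have := h i
      rw [if_pos hi, Finset.mem_singleton] at this
      exact this
  rw [hf]
  simp only [Qodd_eq, sub_div]
  rw [Finset.sum_sub_distrib, ← Finset.sum_div, ← Finset.sum_div, ← Finset.prod_univ_sum]
  have h0 : ∏ i, ∑ j ∈ t i, sg j = 0 := by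
    obtain ⟨i, hi⟩ : ∃ i, i ∉ S := by
      by_contra hc
      push Not at hc
      have : S = univ := Finset.eq_univ_iff_forall.2 hc
      rw [this, Finset.card_univ, Fintype.card_fin] at hS
      exact lt_irrefl _ hS
    refine Finset.prod_eq_zero (Finset.mem_univ i) ?_
    simp only [ht, if_neg hi]
    rw [Fintype.sum_bool]
    simp [sg]
  rw [h0, zero_div, sub_zero, Finset.sum_const, Fintype.card_piFinset]
  have h1 : ∏ i, (t i).card = 2 ^ (k - S.card) := by
    have : ∀ i, (t i).card = if i ∈ S then 1 else 2 := by
      intro i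
      by_cases hi : i ∈ S
      · simp [ht, hi]
      · simp [ht, hi]
    simp only [this]
    rw [Finset.prod_ite, Finset.prod_const_one, one_mul, Finset.prod_const]
    congr 1
    have : (univ.filter fun i => i ∉ S) = Sᶜ := by
      ext i
      simp
    rw [this, Finset.card_compl, Fintype.card_fin]
  rw [h1, nsmul_eq_mul, mul_one]
  push_cast
  rw [div_eq_iff (by positivity)]
  have h2 : (2 : ℝ) ^ k = 2 ^ S.card * 2 ^ (k - S.card) := by
    rw [← pow_add]
    congr 1
    omega
  rw [h2, ← mul_assoc, ← mul_pow]
  norm_num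

theorem pf_ODD : T_ODD := by
  intro k hk
  have hs : ∑ y : Fin k → Bool, Qodd k y = 1 := by
    have := sum_on (k := k) ∅ (fun _ => false) (by simpa using hk)
    simpa using this
  refine ⟨⟨fun y => ?_, hs, ?_, fun S a hS => sum_on S a hS⟩, ?_⟩
  · unfold Qodd
    split_ifs <;> positivity
  · unfold Qodd
    rw [if_neg]
    simp
  · have h : ∀ y : Fin k → Bool, Qodd k y ^ 2 = 2 / 2 ^ k * Qodd k y := by
      intro y
      unfold Qodd
      split_ifs
      · ring
      · simp
    simp only [h]
    rw [← Finset.mul_sum, hs, mul_one]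
    field_simp

end Pool.Agent.H75.SQ.ODD
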