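import Pool.Agent.H75.SQ.Defs

/-!
# Quantum statistical algorithms for satisfiability: targets
-/

set_option autoImplicit false

open Finset Matrix

namespace Pool.Agent.H75.SQ

/-! ### A. The kernel -/

/-- (FOU) the Fourier expansion of a law. -/
def T_FOU : Prop := ∀ (k : ℕ) (Q : (Fin k → Bool) → ℝ),
  (∀ y, 2 ^ k * Q y = ∑ T, fh Q T * ch T y) ∧
  ∑ T, fh Q T ^ 2 = 2 ^ k * ∑ y, Q y ^ 2 ∧
  ∀ r, Law k r Q → fh Q ∅ = 1 ∧ ∀ T : Finset (Fin k), T.Nonempty → T.card < r → fh Q T = 0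

/-- (KER) the kernel. -/
def T_KER : Prop := ∀ (n k r : ℕ) (Q : (Fin k → Bool) → ℝ) (Λ : ℝ) (z z' : Fin n → Bool), 0 < n →
  Law k r Q → 2 ^ k * ∑ y, Q y ^ 2 ≤ Λ →
  ∑ C : Cl n k, uc C * ((2 ^ k * Q (pat z C)) * (2 ^ k * Q (pat z' C))) ≤ Λ ∧
  |∑ C : Cl n k, uc C * ((2 ^ k * Q (pat z C)) * (2 ^ k * Q (pat z' C))) - 1| ≤
    Λ * |kap z z'| ^ r

/-- (SET) the assignments that a test detects. -/
def T_SET : Prop := ∀ (n k r q : ℕ) (Q : (Fin k → Bool) → ℝ) (Λ κ s : ℝ)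
    (h : (Fin q → Cl n k) → ℝ), 0 < n → Law k r Q → 2 ^ k * ∑ y, Q y ^ 2 ≤ Λ → 0 < s → s ≤ 1 →
  0 ≤ κ → q * Λ * κ ^ r ≤ s ^ 2 / 4 → (∀ A, |h A| ≤ 1) →
  (({z : Fin n → Bool | s < |mu (pc Q z) q h - mu uc q h|}.ncard : ℕ) : ℝ) ≤
    4 / s ^ 2 * Λ ^ q * far n κ

/-- (BAL) the number of assignments with a large correlation. -/
def T_BAL : Prop :=
  (∀ (n : ℕ) (κ : ℝ), 0 < n → 0 < κ → (far n κ : ℝ) ≤ 2 * 2 ^ n * Real.exp (-(n * κ ^ 2 / 2))) ∧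
  ∀ e > (0 : ℝ), ∃ κ > (0 : ℝ), κ < 1 ∧ ∀ n : ℕ, 0 < n → (far n κ : ℝ) ≤ 2 * 2 ^ (e * n)

/-! ### B. The mean -/

/-- (OPN) the quadratic form of an observable is Lipschitz. -/
def T_OPN : Prop := ∀ (ι : Type) [Fintype ι] (M : Matrix ι ι ℂ), Obs M → ∀ a b : ι → ℂ,
  |qf M a - qf M b| ≤ (nm a + nm b) * nm (fun x => a x - b x)

/-- (TPW) tensor products of vectors. -/
def T_TPW : Prop := ∀ (ι : Type) [Fintype ι] (q : ℕ) (a b : Fin q → ι → ℂ) (δ : ℝ),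
  (∀ i, nm (a i) ≤ 1) → (∀ i, nm (fun x => a i x - b i x) ≤ δ) → q * δ ≤ 1 / 2 →
  nm (fun s : Fin q → ι => ∏ i, a i (s i) - ∏ i, b i (s i)) ≤ 2 * q * δ ∧
  nm (fun s : Fin q → ι => ∏ i, a i (s i)) ≤ 1 ∧ nm (fun s : Fin q → ι => ∏ i, b i (s i)) ≤ 2

/-- (VAN) the terms with different sets of indices vanish. -/
def T_VAN : Prop := ∀ (γ : Type) [Fintype γ] [DecidableEq γ] (w : γ → ℝ), Pw w →
  ∀ (m q : ℕ) (j j' : Fin q → Fin m) (A A' : Fin q → γ), Function.Injective j →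
  Function.Injective j' → Set.range j ≠ Set.range j' →
  EF w m (fun F => (∏ i, ((if F (j i) = A i then 1 else 0) - w (A i))) *
    ∏ i, ((if F (j' i) = A' i then 1 else 0) - w (A' i))) = 0

/-- (NRM) norms. -/
def T_NRM : Prop := ∀ (γ : Type) [Fintype γ] [DecidableEq γ] (m q : ℕ) (F : Fin m → γ) (w : γ → ℝ)
    (M : Matrix (Fin q → Fin m × γ) (Fin q → Fin m × γ) ℂ), 0 < m → Obs M →
  nm (fs F) = 1 ∧ nm (fq q F) = 1 ∧ nm (fun x => fs F x - uv w F x) = dl w ∧ |ex F M| ≤ 1 ∧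
  (1 : ℝ) - q ^ 2 / (2 * m) ≤
    ({j : Fin q → Fin m | Function.Injective j}.ncard : ℝ) / m ^ q ∧
  nm (fun s => fq q F s - pj (fq q F) s) ≤ q / Real.sqrt (2 * m)

/-- (REA) the state and the centered state. -/
def T_REA : Prop := ∀ (γ : Type) [Fintype γ] [DecidableEq γ] (m q : ℕ) (F : Fin m → γ) (w : γ → ℝ)
    (M : Matrix (Fin q → Fin m × γ) (Fin q → Fin m × γ) ℂ), 0 < m → Obs M → q * dl w ≤ 1 / 2 →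
  |ex F M - qf M (pj fun s => ∏ i, uv w F (s i))| ≤ 3 / 2 * q / Real.sqrt m + 6 * q * dl w

/-- (REB) the mean for the centered state. -/
def T_REB : Prop := ∀ (γ : Type) [Fintype γ] [DecidableEq γ] (m q : ℕ) (w : γ → ℝ)
    (M : Matrix (Fin q → Fin m × γ) (Fin q → Fin m × γ) ℂ), 0 < m → Pw w →
  EF w m (fun F => qf M (pj fun s => ∏ i, uv w F (s i))) =
    EF w m (fun F => (∑ j ∈ (Set.toFinite {j : Fin q → Fin m | Function.Injective j}).toFinset,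
      qf M (syc w F j)) / m ^ q)

/-- (REC) the symmetrised vectors. -/
def T_REC : Prop := ∀ (γ : Type) [Fintype γ] [DecidableEq γ] (m q : ℕ) (F : Fin m → γ) (w : γ → ℝ)
    (M : Matrix (Fin q → Fin m × γ) (Fin q → Fin m × γ) ℂ) (j : Fin q → Fin m), Obs M →
  Function.Injective j → q * dl w ≤ 1 / 2 →
  |qf M (syc w F j) - qf M (sy j (fun i => F (j i)))| ≤ 6 * q * dl w ∧
  ∀ A : Fin q → γ, |qf M (sy j A)| ≤ 1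

/-- (RED) the mean of the expectation of an observable is the mean of a test. -/
def T_RED : Prop := ∀ (γ : Type) [Fintype γ] [DecidableEq γ] (m q : ℕ) (w : γ → ℝ)
    (M : Matrix (Fin q → Fin m × γ) (Fin q → Fin m × γ) ℂ), 0 < m → Pw w → Obs M →
  q * dl w ≤ 1 / 2 → (∀ A, |tst M A| ≤ 1) ∧
  |EF w m (fun F => ex F M) - mu w q (tst M)| ≤ 3 * q / Real.sqrt m + 12 * q * dl w

/-! ### C. Concentration -/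

/-- (DFA) the root of the quadratic form of an effect is convex. -/
def T_DFA : Prop := ∀ (ι : Type) [Fintype ι] (M : Matrix ι ι ℂ), Eff M → ∀ x : ι → ℂ,
  ∃ y : ι → ℂ, nm y ≤ 1 ∧ ∀ x' : ι → ℂ,
    Real.sqrt (qf M x) - Real.sqrt (qf M x') ≤ ‖∑ s, star (y s) * (x s - x' s)‖

/-- (DFB) the changes of the state. -/
def T_DFB : Prop := ∀ (γ : Type) [Fintype γ] [DecidableEq γ] (m q : ℕ) (F : Fin m → γ)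
    (C : Fin m → γ) (y : (Fin q → Fin m × γ) → ℂ), 0 < m → nm y ≤ 1 →
  ∑ i, ‖∑ s, star (y s) * (fq q F s - fq q (Function.update F i (C i)) s)‖ ^ 2 ≤ 12 * q ^ 4 / m

/-- (TEN) the entropy of a product law. -/
def T_TEN : Prop := ∀ (γ : Type) [Fintype γ] [DecidableEq γ] (w : γ → ℝ), Pw w →
  ∀ (m : ℕ) (f : (Fin m → γ) → ℝ), (∀ F, 0 < f F) →
  EF w m (fun F => f F * Real.log (f F)) - EF w m f * Real.log (EF w m f) ≤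
    ∑ i, EF w m (fun F =>
      ∑ C, w C * (f (Function.update F i C) * Real.log (f (Function.update F i C))) -
      (∑ C, w C * f (Function.update F i C)) * Real.log (∑ C, w C * f (Function.update F i C)))

/-- (COV) the entropy of an exponential. -/
def T_COV : Prop := ∀ (γ : Type) [Fintype γ] (w g : γ → ℝ) (l : ℝ), Pw w → 0 ≤ l →
  ∑ C, w C * (Real.exp (l * g C) * Real.log (Real.exp (l * g C))) -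
    (∑ C, w C * Real.exp (l * g C)) * Real.log (∑ C, w C * Real.exp (l * g C)) ≤
  l ^ 2 * ∑ C, ∑ C', w C * w C' * (max 0 (g C - g C') ^ 2 * Real.exp (l * g C))

/-- (HER) the argument of Herbst. -/
def T_HER : Prop := ∀ (ι : Type) [Fintype ι] (p g : ι → ℝ) (V : ℝ), Pw p → 0 ≤ V →
  (∀ l > 0, ∑ x, p x * (Real.exp (l * g x) * Real.log (Real.exp (l * g x))) -
    (∑ x, p x * Real.exp (l * g x)) * Real.log (∑ x, p x * Real.exp (l * g x)) ≤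
    V * l ^ 2 * ∑ x, p x * Real.exp (l * g x)) →
  ∀ l > 0, ∑ x, p x * Real.exp (l * g x) ≤ Real.exp (l * ∑ x, p x * g x + V * l ^ 2)

/-- (EXD) the exponential moment for functions with bounded one-sided differences. -/
def T_EXD : Prop := ∀ (γ : Type) [Fintype γ] [DecidableEq γ] (w : γ → ℝ), Pw w →
  ∀ (m : ℕ) (g : (Fin m → γ) → ℝ) (V : ℝ), 0 ≤ V →
  (∀ (F C : Fin m → γ), ∑ i, max 0 (g F - g (Function.update F i (C i))) ^ 2 ≤ V) →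
  ∀ t > 0, EF w m (fun F => ind (EF w m g + t < g F)) ≤ Real.exp (-(t ^ 2 / (4 * V)))

/-- (CNC) the concentration of the expectation of an observable. -/
def T_CNC : Prop := ∀ (γ : Type) [Fintype γ] [DecidableEq γ] (w : γ → ℝ), Pw w →
  ∀ (m q : ℕ) (M : Matrix (Fin q → Fin m × γ) (Fin q → Fin m × γ) ℂ) (s : ℝ), 0 < m → Obs M →
  0 < s → s ≤ 1 →
  EF w m (fun F => ind (s < |ex F M - EF w m (fun F => ex F M)|)) ≤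
    2 * Real.exp (-(s ^ 2 * m / (1728 * (q + 1) ^ 4)))

/-! ### D. The lower bound -/

/-- (WTS) the laws of the clauses. -/
def T_WTS : Prop := ∀ (n k r : ℕ) (Q : (Fin k → Bool) → ℝ) (z : Fin n → Bool), 0 < n → Law k r Q →
  Pw (uc : Cl n k → ℝ) ∧ Pw (pc Q z) ∧ (∀ C, pc Q z C = uc C * (2 ^ k * Q (pat z C))) ∧
  dl (uc : Cl n k → ℝ) ^ 2 = 1 / (2 * n) ^ k ∧
  dl (pc Q z) ^ 2 = (2 ^ k * ∑ y, Q y ^ 2) / (2 * n) ^ k ∧ 1 ≤ 2 ^ k * ∑ y, Q y ^ 2 ∧ r ≤ k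

/-- (BAD) an observable is useless for most of the formulas. -/
def T_BAD : Prop := ∀ (n k r q m : ℕ) (Q : (Fin k → Bool) → ℝ) (Λ κ τ : ℝ)
    (M : Matrix (Fin q → Fin m × Cl n k) (Fin q → Fin m × Cl n k) ℂ), 0 < n → 0 < m →
  Law k r Q → 2 ^ k * ∑ y, Q y ^ 2 ≤ Λ → 0 < τ → τ ≤ 1 → 0 ≤ κ →
  q * Λ * κ ^ r ≤ τ ^ 2 / 64 →
  3 * q / Real.sqrt m + 12 * q * Real.sqrt (Λ / (2 * n) ^ k) ≤ τ / 4 → Obs M →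
  Ppl Q m (fun F => τ < |ex F M - mu uc q (tst M)|) ≤
    64 / τ ^ 2 * Λ ^ q * far n κ / 2 ^ n +
      2 * Real.exp (-(τ ^ 2 * m / (27648 * (q + 1) ^ 4))) ∧
  Pun m (fun F : Fin m → Cl n k => τ < |ex F M - mu uc q (tst M)|) ≤
    2 * Real.exp (-(τ ^ 2 * m / (27648 * (q + 1) ^ 4)))

/-- (HYA) the hybrid argument. -/
def T_HYA : Prop := ∀ (γ : Type) [Fintype γ] [DecidableEq γ] (q m : ℕ) (A : Alg q m γ)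
    (v v0 : Fin A.a → ℝ), (∀ t, nm (A.st v t) = 1) ∧ (∀ T, 0 ≤ A.pr T v ∧ A.pr T v ≤ 1) ∧
  ∀ T : ℕ, |A.pr T v - A.pr T v0| ≤ 2 * nm (fun x => A.st v T x - A.st v0 T x) ∧
    nm (fun x => A.st v T x - A.st v0 T x) ^ 2 ≤
      4 * T * ∑ t ∈ Finset.range T, ∑ x, ind (v x.1 ≠ v0 x.1) * ‖A.st v0 t x‖ ^ 2

/-- (HYB) the hybrid argument on average. -/
def T_HYB : Prop := ∀ (γ : Type) [Fintype γ] [DecidableEq γ] (q m : ℕ) (A : Alg q m γ)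
    (Ω : Type) [Fintype Ω] (p : Ω → ℝ) (v : Ω → Fin A.a → ℝ) (v0 : Fin A.a → ℝ) (T : ℕ) (P x : ℝ),
  Pw p → 0 < x → (∀ i, ∑ ω, p ω * ind (v ω i ≠ v0 i) ≤ P) →
  ∑ ω, p ω * ind (x < |A.pr T (v ω) - A.pr T v0|) ≤ 16 * T ^ 2 * P / x ^ 2

/-- (UNS) satisfiability. -/
def T_UNS : Prop := ∀ n k m : ℕ, 0 < n →
  Pun m (fun F : Fin m → Cl n k => Sat F) ≤ 2 ^ n * Real.exp (-(m / 2 ^ k)) ∧
  ∀ (r : ℕ) (Q : (Fin k → Bool) → ℝ), Law k r Q →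
    Ppl Q m (fun F : Fin m → Cl n k => ¬ Sat F) = 0

/-- (LOW) the lower bound. -/
def T_LOW : Prop := ∀ (n k r q m : ℕ) (Q : (Fin k → Bool) → ℝ) (Λ κ τ ε : ℝ)
    (A : Alg q m (Cl n k)) (T : ℕ), 0 < n → 0 < m →
  Law k r Q → 2 ^ k * ∑ y, Q y ^ 2 ≤ Λ → 0 < τ → τ ≤ 1 → 0 ≤ κ →
  q * Λ * κ ^ r ≤ τ ^ 2 / 64 →
  3 * q / Real.sqrt m + 12 * q * Real.sqrt (Λ / (2 * n) ^ k) ≤ τ / 4 → 0 < ε →
  16 * T ^ 2 * (64 / τ ^ 2 * Λ ^ q * far n κ / 2 ^ n +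
      2 * Real.exp (-(τ ^ 2 * m / (27648 * (q + 1) ^ 4)))) / ε ^ 2 +
    2 ^ n * Real.exp (-(m / 2 ^ k)) ≤ ε → Fails Q A T τ ε

/-- (PAA) the parameters, linearly many copies. -/
def T_PAA : Prop := ∀ Λ t e : ℝ, 1 ≤ Λ → 0 ≤ t → t * Real.logb 2 Λ < 1 → 0 < e →
  ∃ a > (0 : ℝ), ∃ r₀ n₀ : ℕ, ∃ κ > (0 : ℝ), ∀ n ≥ n₀, ∀ k r q m : ℕ, ∀ τ : ℝ, ∀ T : ℕ,
  r₀ ≤ r → r ≤ k → (q : ℝ) ≤ t * n → Real.exp (-(a * n)) ≤ τ → τ ≤ 1 →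
  q / τ ^ 2 ≤ Real.exp (a * r) → 2 ^ k * n ^ 2 * (q + 1) ^ 4 / τ ^ 4 ≤ m →
  (T : ℝ) ≤ 2 ^ ((1 - t * Real.logb 2 Λ - e) * n / 2) →
  q * Λ * κ ^ r ≤ τ ^ 2 / 64 ∧
  3 * q / Real.sqrt m + 12 * q * Real.sqrt (Λ / (2 * n) ^ k) ≤ τ / 4 ∧
  16 * T ^ 2 * (64 / τ ^ 2 * Λ ^ q * far n κ / 2 ^ n +
      2 * Real.exp (-(τ ^ 2 * m / (27648 * (q + 1) ^ 4)))) / ((2 : ℝ) ^ (-(a * n))) ^ 2 +
    2 ^ n * Real.exp (-(m / 2 ^ k)) ≤ (2 : ℝ) ^ (-(a * n))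

/-- (PAB) the parameters, constant width. -/
def T_PAB : Prop := ∀ e c : ℝ, 0 < e → e < 1 → 0 < c → ∃ r₀ : ℕ, ∀ r ≥ r₀, ∀ Λ : ℝ, 1 ≤ Λ →
  ∃ n₀ : ℕ, ∀ n ≥ n₀, ∃ κ > (0 : ℝ), ∀ k q m : ℕ, ∀ τ : ℝ, ∀ T : ℕ,
  r ≤ k → (q : ℝ) ≤ (n : ℝ) ^ (1 - e) → (n : ℝ) ^ (-c) ≤ τ → τ ≤ 1 →
  2 ^ k * n ^ 2 * (q + 1) ^ 4 / τ ^ 4 ≤ m → (T : ℝ) ≤ 2 ^ (n : ℝ) ^ (1 - e) →
  q * Λ * κ ^ r ≤ τ ^ 2 / 64 ∧
  3 * q / Real.sqrt m + 12 * q * Real.sqrt (Λ / (2 * n) ^ k) ≤ τ / 4 ∧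
  16 * T ^ 2 * (64 / τ ^ 2 * Λ ^ q * far n κ / 2 ^ n +
      2 * Real.exp (-(τ ^ 2 * m / (27648 * (q + 1) ^ 4)))) /
        ((2 : ℝ) ^ (-(n : ℝ) ^ (1 - e))) ^ 2 +
    2 ^ n * Real.exp (-(m / 2 ^ k)) ≤ (2 : ℝ) ^ (-(n : ℝ) ^ (1 - e))

/-- (LOA) the first part of the theorem. -/
def T_LOA : Prop := ∀ Λ t e : ℝ, 1 ≤ Λ → 0 ≤ t → t * Real.logb 2 Λ < 1 → 0 < e →
  ∃ a > (0 : ℝ), ∃ r₀ n₀ : ℕ, ∀ n ≥ n₀, ∀ k r q m : ℕ, ∀ τ : ℝ, ∀ Q : (Fin k → Bool) → ℝ,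
  r₀ ≤ r → Law k r Q → 2 ^ k * ∑ y, Q y ^ 2 ≤ Λ → (q : ℝ) ≤ t * n →
  Real.exp (-(a * n)) ≤ τ → τ ≤ 1 → q / τ ^ 2 ≤ Real.exp (a * r) →
  2 ^ k * n ^ 2 * (q + 1) ^ 4 / τ ^ 4 ≤ m → ∀ (A : Alg q m (Cl n k)) (T : ℕ),
  (T : ℝ) ≤ 2 ^ ((1 - t * Real.logb 2 Λ - e) * n / 2) → Fails Q A T τ (2 ^ (-(a * n)))

/-- (LOB) the second part of the theorem. -/
def T_LOB : Prop := ∀ e c : ℝ, 0 < e → e < 1 → 0 < c → ∃ r₀ : ℕ, ∀ r ≥ r₀, ∀ Λ : ℝ, 1 ≤ Λ →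
  ∃ n₀ : ℕ, ∀ n ≥ n₀, ∀ k q m : ℕ, ∀ τ : ℝ, ∀ Q : (Fin k → Bool) → ℝ,
  Law k r Q → 2 ^ k * ∑ y, Q y ^ 2 ≤ Λ → (q : ℝ) ≤ (n : ℝ) ^ (1 - e) → (n : ℝ) ^ (-c) ≤ τ →
  τ ≤ 1 → 2 ^ k * n ^ 2 * (q + 1) ^ 4 / τ ^ 4 ≤ m → ∀ (A : Alg q m (Cl n k)) (T : ℕ),
  (T : ℝ) ≤ 2 ^ (n : ℝ) ^ (1 - e) → Fails Q A T τ (2 ^ (-(n : ℝ) ^ (1 - e)))

/-! ### E. The upper bound -/

/-- (ODD) the law of an odd number of true literals. -/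
def T_ODD : Prop := ∀ k : ℕ, 0 < k → Law k k (Qodd k) ∧ 2 ^ k * ∑ y, Qodd k y ^ 2 = 2

/-- (DIA) diagonal observables. -/
def T_DIA : Prop := ∀ (γ : Type) [Fintype γ] [DecidableEq γ] (m q : ℕ) (h : (Fin q → γ) → ℝ),
  0 < m → (∀ A, |h A| ≤ 1) → Obs (dm h : Matrix (Fin q → Fin m × γ) (Fin q → Fin m × γ) ℂ) ∧
  (∀ F : Fin m → γ, ex F (dm h : Matrix (Fin q → Fin m × γ) (Fin q → Fin m × γ) ℂ) =
    (∑ j : Fin q → Fin m, h (fun i => F (j i))) / m ^ q) ∧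
  ∀ w : γ → ℝ, Pw w → (∀ A, 0 ≤ h A) →
    EF w m (fun F => ex F (dm h : Matrix (Fin q → Fin m × γ) (Fin q → Fin m × γ) ℂ)) ≤
      mu w q h + q ^ 2 / (2 * m)

/-- (MNA) the mean of the test of a guess. -/
def T_MNA : Prop := ∀ (n k q s : ℕ) (a : Fin n → Bool), 0 < n → 0 < k → s ≤ n →
  mu (uc : Cl n k → ℝ) q (ht s a) ≤ 2 ^ (n - s) / 2 ^ q ∧
  ∀ z : Fin n → Bool, mu (pc (Qodd k) z) q (ht s a) ≤
    ∑ y ∈ (Set.toFinite {y : Fin n → Bool | ∀ i : Fin n, (i : ℕ) < s → y i = a i}).toFinset,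
      ((1 + kap y z ^ k) / 2) ^ q

/-- (SUM) the sum over the assignments near the planted one. -/
def T_SUM : Prop := ∀ t e : ℝ, 0 < e → e < t → t ≤ 1 → ∃ C > (0 : ℝ), ∃ n₀ : ℕ, ∀ n ≥ n₀,
  ∀ (k q s : ℕ) (a z : Fin n → Bool), C * Real.log n ≤ k → t * n - 1 ≤ q → s ≤ n →
  ((n : ℝ) - s) ≤ (t - e) * n → (∃ i : Fin n, (i : ℕ) < s ∧ z i ≠ a i) →
  (Even k → ∃ i : Fin n, (i : ℕ) < s ∧ z i = a i) →
  ∑ y ∈ (Set.toFinite {y : Fin n → Bool | ∀ i : Fin n, (i : ℕ) < s → y i = a i}).toFinset,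
      ((1 + kap y z ^ k) / 2) ^ q ≤ 1 / 32 ∧ (2 : ℝ) ^ (n - s) / 2 ^ q ≤ 1 / 32

/-- (GRO) the algorithm of Grover. -/
def T_GRO : Prop := ∀ (γ : Type) [Fintype γ] [DecidableEq γ] (m q N : ℕ)
    (M : Fin N → Matrix (Fin q → Fin m × γ) (Fin q → Fin m × γ) ℂ), 0 < N → (∀ i, Obs (M i)) →
  ∃ (A : Alg q m γ) (T : ℕ), (T : ℝ) ≤ Real.sqrt N + 1 ∧
    ∀ (F : Fin m → γ) (v : Fin A.a → ℝ), Adm A (1 / 4) F v →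
    ((∃ i₀, 7 / 8 ≤ ex F (M i₀) ∧ ∀ i ≠ i₀, ex F (M i) ≤ 1 / 8) → 1 - 1 / N ≤ A.pr T v) ∧
    ((∀ i, ex F (M i) ≤ 1 / 8) → A.pr T v = 0)

/-- (OPT) the third part of the theorem. -/
def T_OPT : Prop := ∀ t e : ℝ, 0 < t → t < 1 → 0 < e → ∃ C > (0 : ℝ), ∃ d > (0 : ℝ), ∃ n₀ : ℕ,
  ∀ n ≥ n₀, ∀ k q m : ℕ, C * Real.log n ≤ k → (q : ℝ) ≤ t * n → t * n < q + 1 →
  (n : ℝ) ^ C ≤ m → ∃ (A : Alg q m (Cl n k)) (T : ℕ), (T : ℝ) ≤ 2 ^ ((1 - t + e) * n / 2) ∧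
    1 - (2 : ℝ) ^ (-(d * n)) ≤ Ppl (Qodd k) m (fun F : Fin m → Cl n k =>
      ∀ v, Adm A (1 / 4) F v → 1 - (2 : ℝ) ^ (-(d * n)) ≤ A.pr T v) ∧
    1 - (2 : ℝ) ^ (-(d * n)) ≤ Pun m (fun F : Fin m → Cl n k =>
      ∀ v, Adm A (1 / 4) F v → A.pr T v ≤ (2 : ℝ) ^ (-(d * n)))

end Pool.Agent.H75.SQ
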